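import Pool.Agent.H51.MF.Base

/-! # PUSH: Lemma P. -/

set_option linter.style.haveILetI false
set_option linter.unusedSectionVars false
set_option autoImplicit false

namespace Pool.Agent.H51.MF

open Module Pool.Agent.H51.T2

universe u v

variable (K : Type v) [Field K] (A : Type u) [Ring A] [Algebra K A]

theorem s_PUSH (hTBN : S_TBN K A) (hTRC : S_TRC K A) : S_PUSH K A := by
  intro c f₀ g₁ θ₁ θ θ' h0 hz hM hC X hX hT S hS
  obtain ⟨hCW, _, _, _, h5⟩ := hTRC c f₀ g₁ θ₁ h0 hz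
  obtain ⟨T, hT1, hT2, _, hT4, k, σ, hσ⟩ := h5 (X.quot S) hS
  -- the part generated by the cokernel
  have h1 : TbN c f₀ θ' ((X.quot S).sub T) :=
    (hTBN c f₀ θ' h0).2.2 (CW f₀ g₁) ((X.quot S).sub T) k σ hCW hT1 hσ hC
  have h2 : 0 ≤ θ' ⬝ᵥ c.v ((X.quot S).sub T) := by
    have e : ((X.quot S).sub T).quot ⊥ ≃ₗ[A] (X.quot S).sub T := Submodule.quotEquivOfEqBot ⊥ rfl
    have h3 := h1 ⊥ (inW_iso e.symm hT1)
    rwa [v_iso c e] at h3
  -- the quotient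
  have h3 : 0 ≤ θ ⬝ᵥ c.v ((X.quot S).quot T) := by
    have h4 := hT (T.comap S.mkQ) (inW_iso (quotQuot X S T) hT2)
    rwa [← v_iso c (quotQuot X S T)] at h4
  have h4 : θ₁ ⬝ᵥ c.v ((X.quot S).quot T) ≤ 0 := by
    rw [← hz.cl _ hT2]
    exact hh_cl hT4
  have h5 := hM _ hT2 h3 h4
  rw [v_add c (X.quot S) T, dotProduct_add]
  exact add_nonneg h2 h5

end Pool.Agent.H51.MF
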