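import Pool.Agent.H51.MF.Base

/-! # NUM: the numerical description. -/

set_option linter.style.haveILetI false
set_option linter.unusedSectionVars false
set_option autoImplicit false

namespace Pool.Agent.H51.MF

open Module Pool.Agent.H51.T2

universe u v

variable (K : Type v) [Field K] (A : Type u) [Ring A] [Algebra K A]

theorem s_NUM : S_NUM K A := by
  intro c f₀ g θ X _ hz hX
  have hT0 : TT f₀.f (X.sub (tr A g.C X)) := TT.tr K (C := g.C) (M := X.C) (EZero.tt hz.comp.1)
  have hTg : TT g.f (X.sub (tr A g.C X)) := TT.tr K (C := g.C) (M := X.C) (EZero.tt hz.rig)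
  have hHg : HH g.f (X.quot (tr A g.C X)) := hh_quot K (M := X.C) (EZero.tt hz.rig)
  have hW : InW f₀ (X.sub (tr A g.C X)) := inW_sub_of_tt hX hT0
  have hW' : InW f₀ (X.quot (tr A g.C X)) := inW_quot_of_sub hX hW
  refine ⟨⟨fun h S hS => ?_, fun h => ?_⟩, ⟨fun h S hS => ?_, fun h => ?_⟩⟩
  · rw [← hz.cl _ hS]
    exact tt_cl (tt_quot h S)
  · have h1 := h _ hW'
    rw [← hz.cl _ hW'] at h1
    exact tt_ext hTg (tt_of_hh hHg (le_antisymm (hh_cl hHg) h1))
  · rw [← hz.cl _ hS]
    exact hh_cl (hh_sub h S)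
  · have h1 := h _ hW
    rw [← hz.cl _ hW] at h1
    exact hh_ext (hh_of_tt hTg (le_antisymm h1 (tt_cl hTg))) hHg

end Pool.Agent.H51.MF
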